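import Pool.Agent.Helper47.EP.Goals

/-!
# Project EP (MP_5b9a11_al), packet TH: the map `θ`
-/

set_option autoImplicit false
set_option linter.unusedSectionVars false

namespace Pool.Agent.Helper34.EP.TH

open MonoidAlgebra IsLocalRing Pool.Agent.Helper17.PF Pool.Agent.Helper47.EP

variable {p : ℕ} {T : Dat p} {A : Type} [Fintype A] [DecidableEq A] {R : Type} [CommRing R]
  {D : Type} [Group D] (π : D →* Multiplicative (A → ZMod p)) (C : Chr T R)

theorem th_add (x y : MonoidAlgebra R (GG T A π)) : th π C (x + y) = th π C x + th π C y := by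
  unfold th
  rw [coeff_add]
  exact Finsupp.sum_add_index' (fun _ => zero_smul _ _) (fun _ _ _ => add_smul _ _ _)

theorem th_smul (c : R) (x : MonoidAlgebra R (GG T A π)) : th π C (c • x) = c • th π C x := by
  unfold th
  rw [coeff_smul]
  have h := Finsupp.sum_smul_index (g := x.coeff) (b := c) (h := fun (g : GG T A π) (c : R) =>
    c • (single g.left (1 : R) * rho C (Multiplicative.toAdd (π g.right)))) fun _ => zero_smul _ _
  refine h.trans ?_
  rw [Finsupp.smul_sum]
  refine Finsupp.sum_congr fun g _ => ?_
  rw [smul_smul]

theorem th_single (g : GG T A π) (c : R) : th π C (single g c) =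
    c • (single g.left (1 : R) * rho C (Multiplicative.toAdd (π g.right))) := by
  unfold th
  rw [coeff_single]
  exact Finsupp.sum_single_index (zero_smul _ _)

theorem th_zero : th π C 0 = 0 := by
  have h := th_smul π C (0 : R) 0
  rwa [zero_smul, zero_smul] at h

theorem single_smul {G : Type} (g : G) (c : R) : single g c = c • single g (1 : R) := by
  rw [smul_single, smul_eq_mul, mul_one]

theorem th_one' (hRHO : S_RHO) [Fact p.Prime] : th π C 1 = ee C A := by
  obtain ⟨-, r2, -⟩ := hRHO p T A R C
  rw [one_def, th_single]
  show (1 : R) • (single (1 : Hs T A) (1 : R) * rho C (Multiplicative.toAdd (π 1))) = ee C A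
  rw [one_smul, ← one_def, one_mul, map_one]
  exact r2

theorem th_mul (hRHO : S_RHO) [Fact p.Prime] (x y : MonoidAlgebra R (GG T A π)) :
    th π C (x * y) = th π C x * th π C y := by
  obtain ⟨-, -, r3, r4, -⟩ := hRHO p T A R C
  induction x using MonoidAlgebra.induction_linear with
  | zero => rw [zero_mul, th_zero, zero_mul]
  | add x x' h h' => rw [add_mul, th_add, h, h', th_add, add_mul]
  | single g c =>
    induction y using MonoidAlgebra.induction_linear with
    | zero => rw [mul_zero, th_zero, mul_zero]
    | add y y' h h' => rw [mul_add, th_add, h, h', th_add, mul_add]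
    | single g' c' =>
      rw [single_mul_single, th_single, th_single, th_single, smul_mul_smul_comm]
      congr 1
      rw [SemidirectProduct.mul_left, SemidirectProduct.mul_right, map_mul]
      have h1 : single (g.left * (((taHom T A).comp π) g.right) g'.left) (1 : R) =
          single g.left 1 * single (ta (Multiplicative.toAdd (π g.right)) g'.left) 1 := by
        rw [single_mul_single, mul_one]
        rfl
      rw [h1]
      show _ * rho C (Multiplicative.toAdd (π g.right) + Multiplicative.toAdd (π g'.right)) = _
      rw [← r3]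
      calc single g.left (1 : R) * single (ta (Multiplicative.toAdd (π g.right)) g'.left) 1 *
            (rho C (Multiplicative.toAdd (π g.right)) * rho C (Multiplicative.toAdd (π g'.right)))
          = single g.left (1 : R) * (single (ta (Multiplicative.toAdd (π g.right)) g'.left) 1 *
            rho C (Multiplicative.toAdd (π g.right))) * rho C (Multiplicative.toAdd (π g'.right)) := by
            simp only [mul_assoc]
        _ = _ := by
            rw [r4]
            simp only [mul_assoc]

theorem th_inE (hRHO : S_RHO) [Fact p.Prime] (y : MonoidAlgebra R (Hs T A)) :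
    th π C (inE π R T y) = y * ee C A := by
  obtain ⟨-, r2, -⟩ := hRHO p T A R C
  induction y using MonoidAlgebra.induction_linear with
  | zero => rw [map_zero, th_zero, zero_mul]
  | add y y' h h' => rw [map_add, th_add, h, h', add_mul]
  | single g c =>
    have h1 : inE π R T (single g c) = single (SemidirectProduct.inl g) c := by
      unfold inE
      exact mapDomain_single
    rw [h1, th_single, SemidirectProduct.left_inl, SemidirectProduct.right_inl, map_one,
      single_smul g c, smul_mul_assoc]
    show c • (single g (1 : R) * rho C 0) = _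
    rw [r2]

theorem th_ee (hHB : S_HB) (hRHO : S_RHO) [Fact p.Prime] (x : MonoidAlgebra R (GG T A π)) :
    ee C A * th π C x = th π C x := by
  obtain ⟨-, b2, -⟩ := hHB p T A R C
  obtain ⟨r1, -⟩ := hRHO p T A R C
  induction x using MonoidAlgebra.induction_linear with
  | zero => rw [th_zero, mul_zero]
  | add x x' h h' => rw [th_add, mul_add, h, h']
  | single g c =>
    rw [th_single, mul_smul_comm, ← mul_assoc, b2, mul_assoc, r1]

theorem th_map (hRHO : S_RHO) [Fact p.Prime] (S : Type) [CommRing S] (f : R →+* S)
    (x : MonoidAlgebra R (GG T A π)) : MonoidAlgebra.mapRingHom (Hs T A) f (th π C x) =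
      th π (C.map f) (MonoidAlgebra.mapRingHom (GG T A π) f x) := by
  obtain ⟨-, -, -, -, -, -, -, r8⟩ := hRHO p T A R C
  induction x using MonoidAlgebra.induction_linear with
  | zero => rw [map_zero, th_zero, th_zero, map_zero]
  | add x x' h h' => rw [map_add, th_add, th_add, map_add, h, h']
  | single g c =>
    rw [mapRingHom_single, th_single, th_single, ← r8 S f]
    have h1 : ∀ z : MonoidAlgebra R (Hs T A), MonoidAlgebra.mapRingHom (Hs T A) f (c • z) =
        f c • MonoidAlgebra.mapRingHom (Hs T A) f z := by
      intro z
      ext g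
      rw [coeff_mapRingHom, coeff_smul, coeff_smul, Finsupp.smul_apply, Finsupp.smul_apply,
        coeff_mapRingHom, smul_eq_mul, smul_eq_mul, map_mul]
    rw [h1, map_mul, mapRingHom_single, map_one]

/-- the torus element `j` on the group algebra -/
noncomputable def tm (R : Type) [CommRing R] (T : Dat p) (j : A → ZMod p) :
    MonoidAlgebra R (Hs T A) ≃+* MonoidAlgebra R (Hs T A) :=
  mapDomainRingEquiv R (ta j : Hs T A ≃* Hs T A)

theorem tm_single (j : A → ZMod p) (g : Hs T A) (c : R) : tm R T j (single g c) =
    single (ta j g) c := mapDomainRingEquiv_single _ _ _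

theorem tm_coeff (j : A → ZMod p) (x : MonoidAlgebra R (Hs T A)) (g : Hs T A) :
    (tm R T j x).coeff (ta j g) = x.coeff g := by
  unfold tm
  rw [coeff_mapDomainRingEquiv, Finsupp.equivMapDomain_apply]
  congr 1
  exact (ta j).symm_apply_apply g

theorem rho_conj (hHB : S_HB) (hRHO : S_RHO) [Fact p.Prime] (j : A → ZMod p)
    (z : MonoidAlgebra R (Hs T A)) (hz : ee C A * z = z) :
    rho C j * z * rho C (-j) = tm R T j z := by
  obtain ⟨-, b2, -⟩ := hHB p T A R C
  obtain ⟨-, r2, r3, r4, -, r6, -⟩ := hRHO p T A R C
  have h1 : ∀ z : MonoidAlgebra R (Hs T A), rho C j * z = tm R T j z * rho C j := by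
    intro z
    induction z using MonoidAlgebra.induction_linear with
    | zero => rw [map_zero, mul_zero, zero_mul]
    | add x x' h h' => rw [mul_add, h, h', map_add, add_mul]
    | single g c =>
      rw [tm_single, single_smul, mul_smul_comm, ← r4, single_smul (ta j g) c, smul_mul_assoc]
  have h2 : tm R T j (ee C A) = ee C A := by
    ext g
    obtain ⟨g, rfl⟩ := (ta j).surjective g
    rw [tm_coeff, ← r2, r6]
  rw [h1, mul_assoc, r3, add_neg_cancel, r2]
  conv_lhs => rw [← h2, ← map_mul, ← b2, hz]

theorem t (hHB : S_HB) (hRHO : S_RHO) : S_TH := by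
  intro p _ T A _ _ R _ C D _ _ π
  refine ⟨th_mul π C hRHO, th_inE π C hRHO, ?_, th_ee π C hHB hRHO, th_map π C hRHO, th_add π C,
    th_smul π C, th_one' π C hRHO⟩
  intro d x g
  have h0 : ∀ d : D, th π C (single (SemidirectProduct.inr d) 1) =
      rho C (Multiplicative.toAdd (π d)) := by
    intro d
    rw [th_single, SemidirectProduct.left_inr, SemidirectProduct.right_inr, one_smul, ← one_def,
      one_mul]
  rw [th_mul π C hRHO, th_mul π C hRHO, h0, ← map_inv, h0, map_inv, toAdd_inv,
    rho_conj C hHB hRHO _ _ (th_ee π C hHB hRHO x), tm_coeff]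

end Pool.Agent.Helper34.EP.TH
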